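import Pool.Agent.Helper69.QS.Comb

set_option autoImplicit false

/-!
# Congruences for `DSOME(n)` modulo 8 and 16

`DSOME(n)` is the sum, over the partitions of `n` into distinct parts, of the sum of the odd parts
minus the sum of the even parts.

The proof shows that for every `n` not divisible by 5 one has
`5 DSOME(5n+1) = 4 (n+2) v(n)` modulo 16, where `v(n)` is the coefficient of `q^n` in
`f_2^3 / f_1`; see `Pool.Agent.Helper69.QS.main_congr`.
-/

namespace Pool.Agent.Results.MP_496c03_nt.DSOMECongr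

/-- `DSOME(n)`: the sum, over the partitions of `n` into distinct parts, of
(the sum of the odd parts) minus (the sum of the even parts). -/
def DSOME (n : ℕ) : ℤ :=
  ∑ p ∈ Nat.Partition.distincts n,
    (((p.parts.filter (fun a => Odd a)).sum : ℤ) - ((p.parts.filter (fun a => Even a)).sum : ℤ))

lemma key (n : ℕ) (hn : ¬ 5 ∣ n) :
    (16 : ℤ) ∣ 5 * DSOME (5 * n + 1)
      - 4 * ((n : ℤ) + 2) * PowerSeries.coeff n Pool.Agent.Helper69.QS.vv := by
  have h := Pool.Agent.Helper69.QS.main_congr n hn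
  rw [Pool.Agent.Helper69.QS.coeff_Ds] at h
  exact h

lemma mod8 (n : ℕ) (hn : ¬ 5 ∣ n) (h2 : 2 ∣ n) : (8 : ℤ) ∣ DSOME (5 * n + 1) := by
  obtain ⟨c, hc⟩ := key n hn
  obtain ⟨m, rfl⟩ := h2
  have h : (8 : ℤ) ∣ 5 * DSOME (5 * (2 * m) + 1) := by
    refine ⟨2 * c + ((m : ℤ) + 1) * PowerSeries.coeff (2 * m) Pool.Agent.Helper69.QS.vv, ?_⟩
    push_cast at hc
    linarith
  omega

lemma mod16 (n : ℕ) (hn : ¬ 5 ∣ n) (h2 : 4 ∣ n + 2) : (16 : ℤ) ∣ DSOME (5 * n + 1) := by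
  obtain ⟨c, hc⟩ := key n hn
  obtain ⟨m, hm⟩ := h2
  have hm' : (n : ℤ) + 2 = 4 * m := by exact_mod_cast hm
  rw [hm'] at hc
  have h : (16 : ℤ) ∣ 5 * DSOME (5 * n + 1) := by
    refine ⟨c + (m : ℤ) * PowerSeries.coeff n Pool.Agent.Helper69.QS.vv, ?_⟩
    linarith
  omega

/-- Question Q1, in the affirmative. -/
theorem result :
    (∀ n r : ℕ, r = 21 ∨ r = 71 ∨ r = 121 ∨ r = 171 ∨ r = 221 →
      (8 : ℤ) ∣ DSOME (250 * n + r)) ∧
    (∀ n s : ℕ, s = 71 ∨ s = 171 ∨ s = 271 ∨ s = 371 ∨ s = 471 →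
      (16 : ℤ) ∣ DSOME (500 * n + s)) := by
  constructor
  · intro n r hr
    obtain ⟨k, hk⟩ : ∃ k, 250 * n + r = 5 * k + 1 := ⟨(250 * n + r) / 5, by omega⟩
    rw [hk]
    apply mod8
    · omega
    · omega
  · intro n s hs
    obtain ⟨k, hk⟩ : ∃ k, 500 * n + s = 5 * k + 1 := ⟨(500 * n + s) / 5, by omega⟩
    rw [hk]
    apply mod16
    · omega
    · omega

end Pool.Agent.Results.MP_496c03_nt.DSOMECongr
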